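import Pool.Agent.N525.VS.Cq2

/-!
# Clasps: the inequalities for the potential at `ψ = 0`, part 3
-/

set_option autoImplicit false

namespace Pool.Agent.N525.VS

open Filter Topology Metric MeasureTheory Set
open Pool.Agent.W711.HT Pool.Agent.N561
open Pool.Agent.N119.VS (WC WS LL_deriv LS_deriv isOpen_WC isOpen_WS two_mul_mem cos_mem sin_mem
  cos_re' cos_im' sin_re' sin_im' norm_one_add_cos norm_one_sub_cos LS_eq kk_mem star_WC)
open scoped Real ComplexConjugate

/-! ### Arguments -/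

theorem arg_cos {w : ℂ} (h0 : 0 < w.re) (h1 : w.re < π / 2) : |(Complex.cos w).arg| ≤ w.re := by
  have hc : 0 < Real.cos w.re := Real.cos_pos_of_mem_Ioo ⟨by linarith, h1⟩
  have hre : 0 ≤ (Complex.cos w).re := by
    rw [cos_re']
    exact mul_nonneg hc.le (Real.cosh_pos _).le
  rw [Complex.arg_of_re_nonneg hre]
  have hne : Complex.cos w ≠ 0 := by
    intro h
    have := congrArg Complex.re h
    rw [cos_re', Complex.zero_re] at this
    exact (mul_pos hc (Real.cosh_pos _)).ne' this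
  have hn := norm_pos_iff.2 hne
  have hs : 0 < Real.sin w.re := Real.sin_pos_of_pos_of_lt_pi h0 (by linarith [Real.pi_pos])
  have h2 : |(Complex.cos w).im| ≤ Real.sin w.re * ‖Complex.cos w‖ := by
    apply abs_le_of_sq_le_sq _ (by positivity)
    rw [mul_pow, ← Complex.normSq_eq_norm_sq, Complex.normSq_apply, cos_re', cos_im']
    have e1 := Real.sin_sq_add_cos_sq w.re
    have e2 := Real.cosh_sq w.im
    set a := Real.sin w.re
    set b := Real.cos w.re
    set C := Real.cosh w.im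
    set S := Real.sinh w.im
    have e3 : a ^ 2 * (b * C * (b * C) + -(a * S) * -(a * S)) - (-(a * S)) ^ 2 =
        a ^ 2 * b ^ 2 := by
      have e4 : b ^ 2 = 1 - a ^ 2 := by linarith
      calc a ^ 2 * (b * C * (b * C) + -(a * S) * -(a * S)) - (-(a * S)) ^ 2
          = a ^ 2 * (b ^ 2 * C ^ 2 + a ^ 2 * S ^ 2 - S ^ 2) := by ring
        _ = a ^ 2 * b ^ 2 := by rw [e2, e4]; ring
    have : 0 ≤ a ^ 2 * b ^ 2 := by positivity
    linarith
  have h3 : |(Complex.cos w).im / ‖Complex.cos w‖| ≤ Real.sin w.re := by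
    rw [abs_div, abs_of_pos hn, div_le_iff₀ hn]
    exact h2
  rw [abs_le] at h3 ⊢
  constructor
  · rw [← Real.arcsin_sin (x := w.re) (by linarith) h1.le, ← Real.arcsin_neg]
    exact Real.arcsin_le_arcsin h3.1
  · rw [← Real.arcsin_sin (x := w.re) (by linarith) h1.le]
    exact Real.arcsin_le_arcsin h3.2

theorem log_cos_im {w : ℂ} (h0 : 0 < w.re) (h1 : w.re < π / 2) :
    |(Complex.log (2 * Complex.cos w)).im| ≤ w.re := by
  rw [Complex.log_im]
  have : (2 : ℂ) = ((2 : ℝ) : ℂ) := by norm_num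
  rw [this, Complex.arg_real_mul _ (by norm_num)]
  exact arg_cos h0 h1

theorem log_sin_im {w : ℂ} (h0 : 0 < w.re) (h1 : w.re < π / 2) :
    |(Complex.log (2 * Complex.sin w)).im| ≤ π / 2 - w.re := by
  have h2 : (π / 2 - w : ℂ).re = π / 2 - w.re := by simp
  have := log_cos_im (w := π / 2 - w) (by rw [h2]; linarith) (by rw [h2]; linarith)
  rwa [Complex.cos_pi_div_two_sub, h2] at this

/-! ### Vertical lines -/

theorem vert {s : ℝ} (h0 : 0 < s) (h1 : s < 1 / 2) (y : ℝ) :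
    HasDerivAt (fun y : ℝ => (qc ((s : ℂ) + y * Complex.I)).re)
      (-(D1 ((s : ℂ) + y * Complex.I)).im) y := by
  have d1 := qc_deriv (memS h0.le h1.le (Or.inl h0) (y := y)) (memC h0.le h1.le (Or.inl h1))
  have a1 : HasDerivAt (fun z : ℂ => (s : ℂ) + z * Complex.I) Complex.I (y : ℂ) := by
    simpa using ((hasDerivAt_id (y : ℂ)).mul_const Complex.I).const_add (s : ℂ)
  have a2 := (HasDerivAt.comp (y : ℂ) d1 a1).real_of_complex
  have a3 : (D1 ((s : ℂ) + y * Complex.I) * Complex.I).re = -(D1 ((s : ℂ) + y * Complex.I)).im := by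
    simp
  rw [a3] at a2
  exact a2

theorem D1_im_bd {s : ℝ} (h0 : 0 < s) (h1 : s < 1 / 2) (y : ℝ) :
    -(D1 ((s : ℂ) + y * Complex.I)).im ≤ 2 * π ∧
    (D1 ((s : ℂ) + y * Complex.I)).im ≤ π - 2 * π * s := by
  have hp := Real.pi_pos
  have e := pre s y
  have b1 := log_cos_im (w := π * ((s : ℂ) + y * Complex.I)) (by rw [e]; positivity)
    (by rw [e]; nlinarith)
  have b2 := log_sin_im (w := π * ((s : ℂ) + y * Complex.I)) (by rw [e]; positivity)
    (by rw [e]; nlinarith)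
  rw [e, abs_le] at b1 b2
  rw [D1_im]
  constructor <;> nlinarith [b1.1, b1.2, b2.1, b2.2]

/-- the value on the real axis -/
noncomputable def Rr (s : ℝ) : ℝ := (qc s).re

theorem up {s y : ℝ} (h0 : 0 < s) (h1 : s < 1 / 2) (hy : 0 ≤ y) :
    (qc ((s : ℂ) + y * Complex.I)).re - 2 * π * y ≤ Rr s := by
  have hd : ∀ y : ℝ, HasDerivAt (fun y : ℝ => (qc ((s : ℂ) + y * Complex.I)).re - 2 * π * y)
      (-(D1 ((s : ℂ) + y * Complex.I)).im - 2 * π) y := fun y => by
    have a1 : HasDerivAt (fun y : ℝ => 2 * π * y) (2 * π) y := by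
      simpa using (hasDerivAt_id y).const_mul (2 * π)
    exact (vert h0 h1 y).fun_sub a1
  have ha : Antitone (fun y : ℝ => (qc ((s : ℂ) + y * Complex.I)).re - 2 * π * y) := by
    apply antitone_of_deriv_nonpos (fun y => (hd y).differentiableAt)
    intro y
    rw [(hd y).deriv]
    have := (D1_im_bd h0 h1 y).1
    linarith
  have := ha hy
  simpa [Rr] using this

theorem down {s y : ℝ} (h0 : 0 < s) (h1 : s < 1 / 2) (hy : y ≤ 0) :
    (qc ((s : ℂ) + y * Complex.I)).re ≤ Rr s - (π - 2 * π * s) * y := by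
  have hd : ∀ y : ℝ, HasDerivAt (fun y : ℝ => (qc ((s : ℂ) + y * Complex.I)).re +
      (π - 2 * π * s) * y) (-(D1 ((s : ℂ) + y * Complex.I)).im + (π - 2 * π * s)) y := fun y => by
    have a1 : HasDerivAt (fun y : ℝ => (π - 2 * π * s) * y) (π - 2 * π * s) y := by
      simpa using (hasDerivAt_id y).const_mul (π - 2 * π * s)
    exact (vert h0 h1 y).fun_add a1
  have ha : Monotone (fun y : ℝ => (qc ((s : ℂ) + y * Complex.I)).re + (π - 2 * π * s) * y) := by
    apply monotone_of_deriv_nonneg (fun y => (hd y).differentiableAt)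
    intro y
    rw [(hd y).deriv]
    have := (D1_im_bd h0 h1 y).2
    linarith
  have := ha hy
  simp only [Complex.ofReal_zero, zero_mul, add_zero, mul_zero] at this
  unfold Rr
  linarith

/-! ### The real axis -/

/-- the integral of `log (2 sin)` -/
noncomputable def Sl (x : ℝ) : ℝ := ∫ s in (0:ℝ)..x, Real.log (2 * Real.sin s)

theorem Sl_cont : Continuous Sl :=
  intervalIntegral.continuous_primitive (fun a b => Pool.Agent.N839.VS.int_log2sin a b) 0

theorem Sl_zero : Sl 0 = 0 := intervalIntegral.integral_same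

theorem Sl_half : Sl (π / 2) = 0 := by
  unfold Sl
  have h1 : ∫ s in (0:ℝ)..(π / 2), Real.log (2 * Real.sin s) =
      ∫ s in (0:ℝ)..(π / 2), (Real.log 2 + Real.log (Real.sin s)) := by
    refine intervalIntegral.integral_congr_ae (Filter.Eventually.of_forall fun t ht => ?_)
    rw [Set.uIoc_of_le (by positivity)] at ht
    have h2 : 0 < Real.sin t := Real.sin_pos_of_pos_of_lt_pi ht.1 (by linarith [ht.2, Real.pi_pos])
    rw [Real.log_mul (by norm_num) h2.ne']
  have h3 : IntervalIntegrable (fun s => Real.log (Real.sin s)) volume 0 (π / 2) :=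
    intervalIntegrable_log_sin
  rw [h1, intervalIntegral.integral_add intervalIntegrable_const h3,
    integral_log_sin_zero_pi_div_two]
  simp
  ring

theorem LS_Sl {x : ℝ} (h0 : 0 < x) (h1 : x < π) : (LS x).re = Sl x := by
  rw [Pool.Agent.N839.VS.LS_real h0 h1, Complex.ofReal_re]
  rfl

theorem LL_Sl {x : ℝ} (h0 : 0 ≤ x) (h1 : x < π / 2) : (LL x).re = -Sl (π / 2 - x) := by
  have hp := Real.pi_pos
  set G : ℝ → ℝ := fun x => (LL x).re + (LS ((π / 2 - x : ℝ) : ℂ)).re with hG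
  have hd : ∀ t ∈ Ico (0 : ℝ) (π / 2), HasDerivAt G 0 t := by
    intro t ht
    have a1 := (Pool.Agent.N839.VS.LL_deriv (w := (t : ℂ)) (by
      rw [Complex.ofReal_re, abs_of_nonneg ht.1]; exact ht.2)).real_of_complex
    have a2 := Pool.Agent.N839.VS.LS_deriv (x := π / 2 - t) (by linarith [ht.2])
      (by linarith [ht.1])
    have a3 : HasDerivAt (fun t : ℝ => π / 2 - t) (-1) t := by
      simpa using (hasDerivAt_id t).const_sub (π / 2)
    have a4 := a2.comp t a3
    refine (a1.fun_add a4).congr_deriv ?_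
    rw [Real.sin_pi_div_two_sub, Complex.log_re]
    have hc : 0 < Real.cos t := Real.cos_pos_of_mem_Ioo ⟨by linarith [ht.1], ht.2⟩
    rw [← Complex.ofReal_cos, norm_mul, Complex.norm_ofNat, Complex.norm_real, Real.norm_eq_abs,
      abs_of_pos hc]
    ring
  have hx : G x = G 0 := by
    rcases h0.eq_or_lt with h | h
    · rw [← h]
    · refine (constant_of_has_deriv_right_zero (f := G) (a := 0) (b := x) ?_ ?_ x ⟨h0, le_rfl⟩)
      · intro t ht
        exact (hd t ⟨ht.1, by linarith [ht.2]⟩).continuousAt.continuousWithinAt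
      · intro t ht
        exact (hd t ⟨ht.1, by linarith [ht.2]⟩).hasDerivWithinAt
  have h2 : G 0 = 0 := by
    have : (LL ((0 : ℝ) : ℂ)).re = 0 := by simp [LL]
    simp only [hG]
    rw [this, LS_Sl (by linarith) (by linarith), sub_zero, Sl_half, zero_add]
  rw [h2] at hx
  simp only [hG] at hx
  rw [LS_Sl (by linarith) (by linarith)] at hx
  linarith

theorem Rr_eq {s : ℝ} (h0 : 0 < s) (h1 : s < 1 / 2) :
    Rr s = -(2 * Sl (π / 2 - π * s) + 3 * Sl (π * s)) / π := by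
  have hp := Real.pi_pos
  have b0 : 0 < π * s := by positivity
  have b1 : π * s < π / 2 := by nlinarith
  unfold Rr
  rw [qc_eq]
  have e0 : (π : ℂ) * s = ((π * s : ℝ) : ℂ) := by push_cast; ring
  have e1 : (2 * (LL (π * s) / π)).re = 2 * (-Sl (π / 2 - π * s) / π) := by
    have h1 := Complex.re_ofReal_mul 2 (LL (π * s) / π)
    rw [Complex.div_ofReal_re, e0, LL_Sl b0.le b1] at h1
    rw [e0]
    exact_mod_cast h1
  have e2 : (3 * (LS (π * s) / π)).re = 3 * (Sl (π * s) / π) := by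
    have h1 := Complex.re_ofReal_mul 3 (LS (π * s) / π)
    rw [Complex.div_ofReal_re, e0, LS_Sl b0 (by linarith)] at h1
    rw [e0]
    exact_mod_cast h1
  have e3 : (π * Complex.I / 2 * ((s : ℂ) + s ^ 2)) =
      ((π / 2 * (s + s ^ 2) : ℝ) : ℂ) * Complex.I := by
    push_cast
    ring
  rw [Complex.sub_re, Complex.sub_re, e1, e2, e3, Complex.re_ofReal_mul, Complex.I_re]
  field_simp
  ring

theorem Rr_small {ε : ℝ} (hε : 0 < ε) {c : ℝ} (hc0 : 0 < c) (hc1 : c < 1 / 2) :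
    ∃ a₀ b₀ : ℝ, 0 < a₀ ∧ a₀ < c ∧ c < b₀ ∧ b₀ < 1 / 2 ∧ (∀ a, 0 < a → a ≤ a₀ → Rr a < ε) ∧
      ∀ b, b₀ ≤ b → b < 1 / 2 → Rr b < ε := by
  have hp := Real.pi_pos
  set f : ℝ → ℝ := fun s => -(2 * Sl (π / 2 - π * s) + 3 * Sl (π * s)) / π with hf
  have hfc : Continuous f := by
    have := Sl_cont
    fun_prop
  have f0 : f 0 = 0 := by simp [hf, Sl_zero, Sl_half]
  have f1 : f (1 / 2) = 0 := by
    have e1 : π / 2 - π * (1 / 2) = 0 := by ring
    have e2 : π * (1 / 2) = π / 2 := by ring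
    show -(2 * Sl (π / 2 - π * (1 / 2)) + 3 * Sl (π * (1 / 2))) / π = 0
    rw [e1, e2, Sl_zero, Sl_half]
    simp
  have h1 : ∀ᶠ s in 𝓝 (0 : ℝ), f s < ε := by
    have := hfc.tendsto 0
    rw [f0] at this
    exact this.eventually (gt_mem_nhds hε)
  have h2 : ∀ᶠ s in 𝓝 (1 / 2 : ℝ), f s < ε := by
    have := hfc.tendsto (1 / 2)
    rw [f1] at this
    exact this.eventually (gt_mem_nhds hε)
  obtain ⟨d1, hd1, k1⟩ := Metric.eventually_nhds_iff.1 h1
  obtain ⟨d2, hd2, k2⟩ := Metric.eventually_nhds_iff.1 h2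
  refine ⟨min (d1 / 2) (c / 2), max (1 / 2 - d2 / 2) ((1 / 2 + c) / 2), by positivity, ?_, ?_, ?_,
    ?_, ?_⟩
  · exact (min_le_right _ _).trans_lt (by linarith)
  · exact lt_of_lt_of_le (by linarith) (le_max_right _ _)
  · exact max_lt (by linarith) (by linarith)
  · intro a ha0 ha1
    have a1 : a ≤ d1 / 2 := ha1.trans (min_le_left _ _)
    have a2 : a ≤ c / 2 := ha1.trans (min_le_right _ _)
    rw [Rr_eq ha0 (by linarith)]
    apply k1
    rw [Real.dist_eq, sub_zero, abs_of_pos ha0]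
    linarith
  · intro b hb0 hb1
    have a1 : 1 / 2 - d2 / 2 ≤ b := (le_max_left _ _).trans hb0
    have a2 : (1 / 2 + c) / 2 ≤ b := (le_max_right _ _).trans hb0
    rw [Rr_eq (by linarith) hb1]
    apply k2
    rw [Real.dist_eq, abs_lt]
    constructor <;> linarith

/-! ### Conjugation -/

theorem LS_conj {w : ℂ} (hw : w ∈ WS) : LS (conj w) = conj (LS w) := by
  unfold LS
  rw [map_mul, ← Pool.Agent.N839.VS.interval_conj]
  congr 1
  refine intervalIntegral.integral_congr_ae (Filter.Eventually.of_forall fun t ht => ?_)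
  rw [Set.uIoc_of_le zero_le_one] at ht
  have e1 : 2 * Complex.sin (t * conj w) = conj (2 * Complex.sin (t * w)) := by
    rw [map_mul, ← Complex.sin_conj, map_mul, Complex.conj_ofReal, Pool.Agent.N839.VS.conj2]
  have hm : (t : ℂ) * w ∈ WS := by
    obtain ⟨h1, h2, h3⟩ := hw
    have hp := Real.pi_pos
    have hre : ((t : ℂ) * w).re = t * w.re := Complex.re_ofReal_mul _ _
    have him : ((t : ℂ) * w).im = t * w.im := Complex.im_ofReal_mul _ _
    have t0 := ht.1
    have t1 := ht.2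
    refine ⟨?_, ?_, ?_⟩
    · rw [hre]; nlinarith
    · rw [hre]; nlinarith
    · rw [hre, him]
      rcases h3 with h3 | h3
      · left; positivity
      · right; exact mul_ne_zero t0.ne' h3
  rw [e1, Complex.log_conj _ (Pool.Agent.N839.VS.slit_arg (two_mul_mem (sin_mem hm)))]

theorem qc_conj {x y : ℝ} (h0 : 0 ≤ x) (h1 : x ≤ 1 / 2) (hy : y ≠ 0) :
    (qc ((x : ℂ) - y * Complex.I)).re =
      (qc ((x : ℂ) + y * Complex.I)).re - π * y * (1 + 2 * x) := by
  have hp := Real.pi_pos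
  set w : ℂ := π * ((x : ℂ) + y * Complex.I) with hw
  have e0 : (π : ℂ) * ((x : ℂ) - y * Complex.I) = conj w := by
    rw [hw]
    simp
    ring
  have hC := memC h0 h1 (Or.inr hy)
  have hS := memS h0 h1 (Or.inr hy)
  rw [← hw] at hC hS
  have e1 : LL (conj w) = conj (LL w) := Pool.Agent.N839.VS.LL_conj hC.1 (Or.symm hC.2)
  have e2 := LS_conj hS
  rw [qc_eq, qc_eq, e0, e1, e2, ← hw]
  have f1 : ∀ a : ℂ, (2 * (a / π)).re = 2 * (a.re / π) := by
    intro a
    have h1 := Complex.re_ofReal_mul 2 (a / π)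
    rw [Complex.div_ofReal_re] at h1
    exact_mod_cast h1
  have f2 : ∀ a : ℂ, (3 * (a / π)).re = 3 * (a.re / π) := by
    intro a
    have h1 := Complex.re_ofReal_mul 3 (a / π)
    rw [Complex.div_ofReal_re] at h1
    exact_mod_cast h1
  have f3 : (π * Complex.I / 2 * ((x : ℂ) + y * Complex.I + ((x : ℂ) + y * Complex.I) ^ 2)) =
      ((-(π / 2) * (y + 2 * x * y) : ℝ) : ℂ) +
      ((π / 2 * (x + x ^ 2 - y ^ 2) : ℝ) : ℂ) * Complex.I := by
    push_cast
    have := Complex.I_mul_I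
    linear_combination (π / 2 * y + π * x * y + π / 2 * y ^ 2 * Complex.I : ℂ) * this
  have f4 : (π * Complex.I / 2 * ((x : ℂ) - y * Complex.I + ((x : ℂ) - y * Complex.I) ^ 2)) =
      ((π / 2 * (y + 2 * x * y) : ℝ) : ℂ) +
      ((π / 2 * (x + x ^ 2 - y ^ 2) : ℝ) : ℂ) * Complex.I := by
    push_cast
    have := Complex.I_mul_I
    linear_combination (-(π / 2 * y) - π * x * y + π / 2 * y ^ 2 * Complex.I : ℂ) * this
  rw [Complex.sub_re, Complex.sub_re, Complex.sub_re, Complex.sub_re, f1, f1, f2, f2, f3, f4,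
    Complex.add_re, Complex.add_re, Complex.ofReal_re, Complex.ofReal_re, Complex.re_ofReal_mul,
    Complex.I_re, Complex.conj_re, Complex.conj_re]
  ring

/-! ### All inequalities -/

theorem all : zz.im < 0 ∧ 0 < zz.re ∧ zz.re < 1 / 2 ∧
    HasDerivAt qc 0 zz ∧ (deriv (deriv qc) zz).re < 0 ∧ 0 < (qc zz).re ∧
    (∀ x : ℝ, 0 ≤ x → x ≤ 1 / 2 → x ≠ zz.re → (qc (x + zz.im * Complex.I)).re < (qc zz).re) ∧
    ∃ a₀ b₀ : ℝ, 0 < a₀ ∧ a₀ < zz.re ∧ zz.re < b₀ ∧ b₀ < 1 / 2 ∧
      ∀ a b : ℝ, 0 < a → a ≤ a₀ → b₀ ≤ b → b < 1 / 2 →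
      (∀ y : ℝ, zz.im ≤ y → y ≤ 0 → (qc (a + y * Complex.I)).re < (qc zz).re ∧
        (qc (b + y * Complex.I)).re < (qc zz).re) ∧
      (∀ y : ℝ, 0 ≤ y → y ≤ -zz.im →
        (qc (a + y * Complex.I)).re - 2 * π * y < (qc zz).re ∧
        (qc (b + y * Complex.I)).re - 2 * π * y < (qc zz).re) ∧
      ∀ x : ℝ, 0 ≤ x → x ≤ b →
        (qc (x - zz.im * Complex.I)).re + 2 * π * zz.im < (qc zz).re := by
  have hp := Real.pi_pos
  have i1 := zz_im_neg
  have i2 := zz_re_pos
  have i3 := zz_re_lt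
  have g1 := F0_gt
  have g2 := F0_pos
  have hF : (qc zz).re = F0 := rfl
  refine ⟨i1, i2, i3, crit_deriv, second, g2, fun x h0 h1 hx => flat h0 h1 hx, ?_⟩
  obtain ⟨a₀, b₀, k1, k2, k3, k4, k5, k6⟩ := Rr_small (ε := F0 + π * zz.im) (by linarith) i2 i3
  refine ⟨a₀, b₀, k1, k2, k3, k4, fun a b ha0 ha1 hb0 hb1 => ?_⟩
  rw [hF]
  have ha2 : a < 1 / 2 := by linarith
  have hb2 : 0 < b := by linarith
  have ra := k5 a ha0 ha1
  have rb := k6 b hb0 hb1
  have hneg : π * zz.im < 0 := mul_neg_of_pos_of_neg hp i1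
  have low : ∀ s y : ℝ, 0 < s → s < 1 / 2 → Rr s < F0 + π * zz.im → zz.im ≤ y → y ≤ 0 →
      (qc ((s : ℂ) + y * Complex.I)).re < F0 := by
    intro s y hs0 hs1 hr hy0 hy1
    have h1 := down hs0 hs1 hy1
    have h2 : -((π - 2 * π * s) * y) ≤ -(π * zz.im) := by
      have h3 : 0 ≤ π - 2 * π * s := by nlinarith
      have h4 : (π - 2 * π * s) * zz.im ≤ (π - 2 * π * s) * y := mul_le_mul_of_nonneg_left hy0 h3
      have h5 : π * zz.im ≤ (π - 2 * π * s) * zz.im := by
        have : 0 ≤ 2 * π * s := by positivity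
        nlinarith
      linarith
    linarith
  have high : ∀ s y : ℝ, 0 < s → s < 1 / 2 → Rr s < F0 + π * zz.im → 0 ≤ y →
      (qc ((s : ℂ) + y * Complex.I)).re - 2 * π * y < F0 := by
    intro s y hs0 hs1 hr hy0
    have h1 := up hs0 hs1 hy0
    linarith
  refine ⟨fun y hy0 hy1 => ⟨low a y ha0 ha2 ra hy0 hy1, low b y hb2 hb1 rb hy0 hy1⟩,
    fun y hy0 _ => ⟨high a y ha0 ha2 ra hy0, high b y hb2 hb1 rb hy0⟩, fun x hx0 hx1 => ?_⟩
  have hx2 : x < 1 / 2 := by linarith
  rw [qc_conj hx0 hx2.le i1.ne]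
  have h1 : (qc ((x : ℂ) + zz.im * Complex.I)).re ≤ F0 := by
    by_cases h : x = zz.re
    · rw [h, Complex.re_add_im]
      rfl
    · exact (flat hx0 hx2.le h).le
  have h2 : π * zz.im * (1 - 2 * x) < 0 := mul_neg_of_neg_of_pos hneg (by linarith)
  linarith

end Pool.Agent.N525.VS
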