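import Pool.Agent.N561.C.Stm
import Pool.Agent.N525.VS.Cq3

/-!
# Clasps: `S_CQ`
-/

set_option autoImplicit false

namespace Pool.Agent.N525.VS

open Pool.Agent.N561

theorem cq : S_CQ := all

end Pool.Agent.N525.VS
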