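import Pool.Agent.N119.VS.Flat
import Pool.Agent.N839.VS.Axis

/-!
# Clasps: the inequalities for the potential at `ψ = 0`
-/

set_option autoImplicit false

namespace Pool.Agent.N525.VS

open Filter Topology Metric MeasureTheory Set
open Pool.Agent.W711.HT Pool.Agent.N561
open Pool.Agent.N119.VS (WC WS LL_deriv LS_deriv isOpen_WC isOpen_WS two_mul_mem cos_mem sin_mem
  cos_re' cos_im' sin_re' sin_im' norm_one_add_cos norm_one_sub_cos LS_eq kk_mem)
open scoped Real ComplexConjugate

/-- the potential at `ψ = 0` -/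
noncomputable def qc (δ : ℂ) : ℂ :=
  RR δ 0 - 3 * (LS (π * δ) / π) - π * Complex.I / 2 * (δ + δ ^ 2)

/-- its critical point -/
noncomputable def zz : ℂ :=
  Complex.log (1 + 2 * Complex.I * Complex.cos ((0 : ℂ) / 2)) / (2 * π * Complex.I)

/-- the derivative -/
noncomputable def D1 (δ : ℂ) : ℂ := 2 * Complex.log (2 * Complex.cos (π * δ)) -
  3 * Complex.log (2 * Complex.sin (π * δ)) - π * Complex.I / 2 * (1 + 2 * δ)

theorem pi_ne : (π : ℂ) ≠ 0 := by exact_mod_cast Real.pi_ne_zero

theorem qc_eq (δ : ℂ) : qc δ = 2 * (LL (π * δ) / π) - 3 * (LS (π * δ) / π) -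
    π * Complex.I / 2 * (δ + δ ^ 2) := by
  simp only [qc, RR, zero_div, add_zero, sub_zero]
  ring

theorem qc_deriv {δ : ℂ} (h0 : π * δ ∈ WS) (h1 : π * δ ∈ WC) : HasDerivAt qc (D1 δ) δ := by
  have hp := pi_ne
  have a0 : HasDerivAt (fun δ : ℂ => π * δ) (π : ℂ) δ := by
    simpa using (hasDerivAt_id δ).const_mul (π : ℂ)
  have a1 := ((LL_deriv h1).comp δ a0).div_const (π : ℂ)
  have a2 := ((LS_deriv h0).comp δ a0).div_const (π : ℂ)
  have a3 : HasDerivAt (fun δ : ℂ => δ + δ ^ 2) (1 + 2 * δ) δ := by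
    refine ((hasDerivAt_id' δ).fun_add ((hasDerivAt_id' δ).fun_pow 2)).congr_deriv ?_
    simp
  have h := ((a1.const_mul 2).sub (a2.const_mul 3)).sub (a3.const_mul (π * Complex.I / 2))
  have e : qc = fun δ => 2 * (LL (π * δ) / π) - 3 * (LS (π * δ) / π) -
      π * Complex.I / 2 * (δ + δ ^ 2) := funext qc_eq
  rw [e]
  refine h.congr_deriv ?_
  unfold D1
  field_simp

/-! ### The critical point -/

theorem Lam_eq : Complex.log (1 + 2 * Complex.I * Complex.cos ((0 : ℂ) / 2)) =
    Complex.log (1 + 2 * Complex.I) := by simp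

theorem norm_X : ‖(1 + 2 * Complex.I : ℂ)‖ = √5 := by
  rw [Complex.norm_def, Complex.normSq_apply]
  simp
  norm_num

theorem X_ne : (1 + 2 * Complex.I : ℂ) ≠ 0 := fun h => by
  have := congrArg Complex.re h
  simp at this

theorem argX : 0 < (1 + 2 * Complex.I : ℂ).arg ∧ (1 + 2 * Complex.I : ℂ).arg < π / 2 := by
  have h1 : |(1 + 2 * Complex.I : ℂ).arg| < π / 2 := by
    rw [Complex.abs_arg_lt_pi_div_two_iff]
    left
    simp
  have h2 : 0 ≤ (1 + 2 * Complex.I : ℂ).arg := by
    rw [Complex.arg_nonneg_iff]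
    simp
  have h3 : (1 + 2 * Complex.I : ℂ).arg ≠ 0 := by
    intro h
    rw [Complex.arg_eq_zero_iff] at h
    simp at h
  exact ⟨lt_of_le_of_ne h2 (Ne.symm h3), (abs_lt.1 h1).2⟩

/-- `u = π z` -/
noncomputable def uu : ℂ := π * zz

theorem uu_I : 2 * (Complex.I * uu) = Complex.log (1 + 2 * Complex.I) := by
  unfold uu zz
  rw [Lam_eq]
  have := pi_ne
  have := Complex.I_ne_zero
  field_simp

theorem uu_eq : uu = -(Complex.I * Complex.log (1 + 2 * Complex.I)) / 2 := by
  rw [← uu_I]
  have := Complex.I_mul_I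
  linear_combination uu * this

theorem uu_re : uu.re = (1 + 2 * Complex.I : ℂ).arg / 2 := by
  rw [uu_eq]
  simp [Complex.log_im]

theorem uu_im : uu.im = -(Real.log 5 / 4) := by
  rw [uu_eq]
  have h : (Complex.log (1 + 2 * Complex.I)).re = Real.log 5 / 2 := by
    rw [Complex.log_re, norm_X, Real.log_sqrt (by norm_num)]
  simp [h]
  ring

theorem zz_re : zz.re = uu.re / π := by
  have : uu.re = π * zz.re := by rw [uu, Complex.re_ofReal_mul]
  rw [this]
  field_simp

theorem zz_im : zz.im = uu.im / π := by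
  have : uu.im = π * zz.im := by rw [uu, Complex.im_ofReal_mul]
  rw [this]
  field_simp

theorem exp_sq : Complex.exp (Complex.I * uu) ^ 2 = 1 + 2 * Complex.I := by
  rw [← Complex.exp_nat_mul]
  push_cast
  rw [uu_I, Complex.exp_log X_ne]

theorem two_sin : 2 * Complex.sin uu = 2 * Complex.exp (-(Complex.I * uu)) := by
  have h1 := exp_sq
  have h2 : Complex.exp (Complex.I * uu) * Complex.exp (-(Complex.I * uu)) = 1 := by
    rw [← Complex.exp_add]; simp
  rw [Complex.sin]
  rw [show -uu * Complex.I = -(Complex.I * uu) by ring, show uu * Complex.I = Complex.I * uu by ring]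
  set e := Complex.exp (Complex.I * uu)
  set f := Complex.exp (-(Complex.I * uu))
  have hI := Complex.I_mul_I
  have h3 : e = (1 + 2 * Complex.I) * f := by
    calc e = e ^ 2 * f := by linear_combination (-e) * h2
      _ = _ := by rw [h1]
  rw [h3]
  linear_combination (-2 * f) * hI

theorem two_cos : 2 * Complex.cos uu = (2 + 2 * Complex.I) * Complex.exp (-(Complex.I * uu)) := by
  have h1 := exp_sq
  have h2 : Complex.exp (Complex.I * uu) * Complex.exp (-(Complex.I * uu)) = 1 := by
    rw [← Complex.exp_add]; simp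
  rw [Complex.cos]
  rw [show -uu * Complex.I = -(Complex.I * uu) by ring, show uu * Complex.I = Complex.I * uu by ring]
  set e := Complex.exp (Complex.I * uu)
  set f := Complex.exp (-(Complex.I * uu))
  have h3 : e = (1 + 2 * Complex.I) * f := by
    calc e = e ^ 2 * f := by linear_combination (-e) * h2
      _ = _ := by rw [h1]
  rw [h3]
  ring

theorem log_two_sin : Complex.log (2 * Complex.sin uu) = Real.log 2 - Complex.I * uu := by
  have ha := argX
  rw [two_sin]
  have h1 : (2 : ℂ) = ((2 : ℝ) : ℂ) := by norm_num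
  rw [h1, Complex.log_ofReal_mul (by norm_num) (Complex.exp_ne_zero _), Complex.log_exp]
  · ring
  · simp only [Complex.neg_im, Complex.mul_im, Complex.I_re, Complex.I_im, zero_mul, one_mul,
      zero_add, uu_re]
    linarith [Real.pi_pos]
  · simp only [Complex.neg_im, Complex.mul_im, Complex.I_re, Complex.I_im, zero_mul, one_mul,
      zero_add, uu_re]
    linarith [Real.pi_pos]

theorem log_two_cos : Complex.log (2 * Complex.cos uu) =
    3 / 2 * Real.log 2 + π / 4 * Complex.I - Complex.I * uu := by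
  have ha := argX
  have h1 : 2 * Complex.cos uu = Complex.exp (3 / 2 * Real.log 2 + π / 4 * Complex.I -
      Complex.I * uu) := by
    rw [two_cos, sub_eq_add_neg, Complex.exp_add, Complex.exp_add]
    congr 1
    have h2 : Complex.exp (3 / 2 * Real.log 2) = ((2 * √2 : ℝ) : ℂ) := by
      have h3 : (3 / 2 * Real.log 2 : ℂ) = ((3 / 2 * Real.log 2 : ℝ) : ℂ) := by push_cast; ring
      rw [h3, ← Complex.ofReal_exp]
      congr 1
      have h4 : 3 / 2 * Real.log 2 = Real.log (2 * √2) := by
        rw [Real.log_mul (by norm_num) (by positivity), Real.log_sqrt (by norm_num)]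
        ring
      rw [h4, Real.exp_log (by positivity)]
    have h5 : Complex.exp (π / 4 * Complex.I) = ((√2 / 2 : ℝ) : ℂ) * (1 + Complex.I) := by
      have h6 : (π / 4 * Complex.I : ℂ) = ((π / 4 : ℝ) : ℂ) * Complex.I := by push_cast; ring
      rw [h6, Complex.exp_mul_I, ← Complex.ofReal_cos, ← Complex.ofReal_sin, Real.cos_pi_div_four,
        Real.sin_pi_div_four]
      ring
    rw [h2, h5, ← mul_assoc, ← Complex.ofReal_mul]
    have h7 : 2 * √2 * (√2 / 2) = 2 := by
      have := Real.mul_self_sqrt (show (0 : ℝ) ≤ 2 by norm_num)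
      nlinarith
    rw [h7]
    push_cast
    ring
  have him : ∀ r : ℝ, (3 / 2 * (r : ℂ) + π / 4 * Complex.I - Complex.I * uu).im =
      π / 4 - uu.re := by
    intro r
    simp [Complex.add_im, Complex.mul_im]
  rw [h1, Complex.log_exp]
  · rw [him, uu_re]
    linarith [Real.pi_pos]
  · rw [him, uu_re]
    linarith [Real.pi_pos]

theorem crit : D1 zz = 0 := by
  have h : (π : ℂ) * zz = uu := rfl
  unfold D1
  rw [h, log_two_sin, log_two_cos]
  have h2 : (π : ℂ) * Complex.I / 2 * (1 + 2 * zz) = π * Complex.I / 2 + Complex.I * uu := by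
    rw [← h]; ring
  rw [h2]
  ring

theorem uu_WS : uu ∈ WS := by
  have ha := argX
  have := Real.pi_pos
  refine ⟨?_, ?_, Or.inl ?_⟩ <;> rw [uu_re] <;> linarith

theorem uu_WC : uu ∈ WC := by
  have ha := argX
  have := Real.pi_pos
  have h : |uu.re| < π / 2 := by
    rw [uu_re, abs_of_pos (by linarith)]
    linarith
  exact ⟨by linarith, Or.inl h⟩

theorem crit_deriv : HasDerivAt qc 0 zz := by
  have := qc_deriv (δ := zz) uu_WS uu_WC
  rwa [crit] at this

theorem D1_deriv {δ : ℂ} (h0 : π * δ ∈ WS) (h1 : π * δ ∈ WC) :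
    HasDerivAt D1 (2 * (-(Complex.sin (π * δ)) * π / Complex.cos (π * δ)) -
      3 * (Complex.cos (π * δ) * π / Complex.sin (π * δ)) - π * Complex.I) δ := by
  have c1 : Complex.cos (π * δ) ≠ 0 := Complex.slitPlane_ne_zero (cos_mem h1)
  have c2 : Complex.sin (π * δ) ≠ 0 := Complex.slitPlane_ne_zero (sin_mem h0)
  have a0 : HasDerivAt (fun δ : ℂ => π * δ) (π : ℂ) δ := by
    simpa using (hasDerivAt_id δ).const_mul (π : ℂ)
  have a1 := ((a0.ccos).const_mul 2).clog (two_mul_mem (cos_mem h1))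
  have a2 := ((a0.csin).const_mul 2).clog (two_mul_mem (sin_mem h0))
  have a3 : HasDerivAt (fun δ : ℂ => 1 + 2 * δ) 2 δ := by
    simpa using ((hasDerivAt_id δ).const_mul 2).const_add 1
  have h := ((a1.const_mul 2).sub (a2.const_mul 3)).sub (a3.const_mul (π * Complex.I / 2))
  refine h.congr_deriv ?_
  field_simp

theorem second : (deriv (deriv qc) zz).re < 0 := by
  have h0 : ∀ᶠ δ in 𝓝 zz, deriv qc δ = D1 δ := by
    have hc : Continuous (fun δ : ℂ => (π : ℂ) * δ) := by fun_prop
    have e1 : ∀ᶠ δ : ℂ in 𝓝 zz, π * δ ∈ WS :=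
      (hc.tendsto zz).eventually (isOpen_WS.mem_nhds uu_WS)
    have e2 : ∀ᶠ δ : ℂ in 𝓝 zz, π * δ ∈ WC :=
      (hc.tendsto zz).eventually (isOpen_WC.mem_nhds uu_WC)
    filter_upwards [e1, e2] with δ h1 h2
    exact (qc_deriv h1 h2).deriv
  rw [Filter.EventuallyEq.deriv_eq h0, (D1_deriv (δ := zz) uu_WS uu_WC).deriv]
  have h : (π : ℂ) * zz = uu := rfl
  rw [h]
  have hs : Complex.sin uu = Complex.exp (-(Complex.I * uu)) := by
    have := two_sin
    exact mul_left_cancel₀ two_ne_zero this
  have hc : Complex.cos uu = (1 + Complex.I) * Complex.exp (-(Complex.I * uu)) := by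
    have := two_cos
    refine mul_left_cancel₀ (two_ne_zero (α := ℂ)) ?_
    rw [this]; ring
  have he := Complex.exp_ne_zero (-(Complex.I * uu))
  have hI : (1 + Complex.I : ℂ) ≠ 0 := fun h => by
    have := congrArg Complex.re h
    simp at this
  have e1 : -(Complex.sin uu) * π / Complex.cos uu = -(π / (1 + Complex.I)) := by
    rw [hs, hc]; field_simp
  have e2 : Complex.cos uu * π / Complex.sin uu = (1 + Complex.I) * π := by
    rw [hs, hc]; field_simp
  have e3 : (π : ℂ) / (1 + Complex.I) = π * (1 - Complex.I) / 2 := by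
    rw [div_eq_div_iff hI two_ne_zero]
    have := Complex.I_mul_I
    linear_combination (-(π : ℂ)) * (-1 : ℂ) * this
  rw [e1, e2, e3]
  have : (2 * -(π * (1 - Complex.I) / 2) - 3 * ((1 + Complex.I) * π) - π * Complex.I : ℂ) =
      ((-4 * π : ℝ) : ℂ) + ((-3 * π : ℝ) : ℂ) * Complex.I := by
    push_cast; ring
  rw [this]
  simp
  exact Real.pi_pos

end Pool.Agent.N525.VS
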