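import Pool.Agent.N525.VS.Cq1

/-!
# Clasps: the inequalities for the potential at `ψ = 0`, part 2
-/

set_option autoImplicit false

namespace Pool.Agent.N525.VS

open Filter Topology Metric MeasureTheory Set
open Pool.Agent.W711.HT Pool.Agent.N561
open Pool.Agent.N119.VS (WC WS LL_deriv LS_deriv isOpen_WC isOpen_WS two_mul_mem cos_mem sin_mem
  cos_re' cos_im' sin_re' sin_im' norm_one_add_cos norm_one_sub_cos LS_eq kk_mem star_WC)
open scoped Real ComplexConjugate

theorem pre (s y : ℝ) : (π * ((s : ℂ) + y * Complex.I)).re = π * s := by simp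

theorem pim (s y : ℝ) : (π * ((s : ℂ) + y * Complex.I)).im = π * y := by simp

theorem memS {s y : ℝ} (h0 : 0 ≤ s) (h1 : s ≤ 1 / 2) (h : 0 < s ∨ y ≠ 0) :
    π * ((s : ℂ) + y * Complex.I) ∈ WS := by
  have hp := Real.pi_pos
  refine ⟨?_, ?_, ?_⟩
  · rw [pre]; have : 0 ≤ π * s := by positivity
    linarith
  · rw [pre]; nlinarith
  · rw [pre, pim]
    rcases h with h | h
    · left; positivity
    · right; exact mul_ne_zero hp.ne' h

theorem memC {s y : ℝ} (h0 : 0 ≤ s) (h1 : s ≤ 1 / 2) (h : s < 1 / 2 ∨ y ≠ 0) :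
    π * ((s : ℂ) + y * Complex.I) ∈ WC := by
  have hp := Real.pi_pos
  have h2 : 0 ≤ π * s := by positivity
  refine ⟨?_, ?_⟩
  · rw [pre, abs_of_nonneg h2]; nlinarith
  · rw [pre, pim, abs_of_nonneg h2]
    rcases h with h | h
    · left; nlinarith
    · right; exact mul_ne_zero hp.ne' h

/-! ### The flat line -/

theorem D1_re {s y : ℝ} (h0 : 0 ≤ s) (h1 : s ≤ 1 / 2) (hy : y ≠ 0) :
    (D1 ((s : ℂ) + y * Complex.I)).re =
      Real.log (2 * (Real.cosh (2 * π * y) + Real.cos (2 * π * s))) -
      3 / 2 * Real.log (2 * (Real.cosh (2 * π * y) - Real.cos (2 * π * s))) + π * y := by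
  have hp := Real.pi_pos
  set w : ℂ := π * ((s : ℂ) + y * Complex.I) with hw
  have c1 : Complex.cos w ≠ 0 := Complex.slitPlane_ne_zero (cos_mem (memC h0 h1 (Or.inr hy)))
  have c2 : Complex.sin w ≠ 0 := Complex.slitPlane_ne_zero (sin_mem (memS h0 h1 (Or.inr hy)))
  have e1 : 1 + Complex.cos (2 * w) = 2 * (Complex.cos w * Complex.cos w) := by
    rw [Complex.cos_two_mul]; ring
  have e2 : 1 - Complex.cos (2 * w) = 2 * (Complex.sin w * Complex.sin w) := by
    rw [Complex.cos_two_mul, Complex.cos_sq']; ring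
  have n1 := norm_one_add_cos (2 * w)
  have n2 := norm_one_sub_cos (2 * w)
  have ure : (2 * w).re = 2 * π * s := by simp [hw]; ring
  have uim : (2 * w).im = 2 * π * y := by simp [hw]; ring
  rw [ure, uim, e1, norm_mul, norm_mul, Complex.norm_ofNat] at n1
  rw [ure, uim, e2, norm_mul, norm_mul, Complex.norm_ofNat] at n2
  have m1 := norm_pos_iff.2 c1
  have m2 := norm_pos_iff.2 c2
  rw [← n1, ← n2]
  have l1 : Real.log (2 * (2 * (‖Complex.cos w‖ * ‖Complex.cos w‖))) =
      2 * Real.log (2 * ‖Complex.cos w‖) := by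
    rw [show 2 * (2 * (‖Complex.cos w‖ * ‖Complex.cos w‖)) = (2 * ‖Complex.cos w‖) ^ 2 by ring,
      Real.log_pow]
    norm_num
  have l2 : Real.log (2 * (2 * (‖Complex.sin w‖ * ‖Complex.sin w‖))) =
      2 * Real.log (2 * ‖Complex.sin w‖) := by
    rw [show 2 * (2 * (‖Complex.sin w‖ * ‖Complex.sin w‖)) = (2 * ‖Complex.sin w‖) ^ 2 by ring,
      Real.log_pow]
    norm_num
  rw [l1, l2]
  unfold D1
  rw [← hw]
  have e3 : (π * Complex.I / 2 * (1 + 2 * ((s : ℂ) + y * Complex.I))) =
      ((-(π * y) : ℝ) : ℂ) + ((π / 2 * (1 + 2 * s) : ℝ) : ℂ) * Complex.I := by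
    push_cast
    have := Complex.I_mul_I
    linear_combination (π * y : ℂ) * this
  rw [e3]
  have e4 : (2 * Complex.log (2 * Complex.cos w)).re = 2 * Real.log (2 * ‖Complex.cos w‖) := by
    have := Complex.re_ofReal_mul 2 (Complex.log (2 * Complex.cos w))
    rw [Complex.log_re, norm_mul, Complex.norm_ofNat] at this
    exact_mod_cast this
  have e5 : (3 * Complex.log (2 * Complex.sin w)).re = 3 * Real.log (2 * ‖Complex.sin w‖) := by
    have := Complex.re_ofReal_mul 3 (Complex.log (2 * Complex.sin w))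
    rw [Complex.log_re, norm_mul, Complex.norm_ofNat] at this
    exact_mod_cast this
  rw [Complex.sub_re, Complex.sub_re, e4, e5]
  simp
  ring

theorem D1_im {s y : ℝ} : (D1 ((s : ℂ) + y * Complex.I)).im =
    2 * (Complex.log (2 * Complex.cos (π * ((s : ℂ) + y * Complex.I)))).im -
    3 * (Complex.log (2 * Complex.sin (π * ((s : ℂ) + y * Complex.I)))).im -
    π / 2 * (1 + 2 * s) := by
  unfold D1
  have e3 : (π * Complex.I / 2 * (1 + 2 * ((s : ℂ) + y * Complex.I))) =
      ((-(π * y) : ℝ) : ℂ) + ((π / 2 * (1 + 2 * s) : ℝ) : ℂ) * Complex.I := by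
    push_cast
    have := Complex.I_mul_I
    linear_combination (π * y : ℂ) * this
  rw [e3]
  simp [Complex.mul_im]

theorem zz_im_neg : zz.im < 0 := by
  rw [zz_im, uu_im]
  apply div_neg_of_neg_of_pos _ Real.pi_pos
  have := Real.log_pos (show (1 : ℝ) < 5 by norm_num)
  linarith

theorem zz_re_pos : 0 < zz.re := by
  rw [zz_re, uu_re]
  have := argX.1
  have := Real.pi_pos
  positivity

theorem zz_re_lt : zz.re < 1 / 2 := by
  rw [zz_re, uu_re, div_lt_iff₀ Real.pi_pos]
  have := argX.2
  have := Real.pi_pos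
  linarith

/-- the critical value -/
noncomputable def F0 : ℝ := (qc zz).re

theorem flat {x : ℝ} (h0 : 0 ≤ x) (h1 : x ≤ 1 / 2) (hx : x ≠ zz.re) :
    (qc (x + zz.im * Complex.I)).re < F0 := by
  have hp := Real.pi_pos
  set v := zz.im with hv
  have hv0 : v ≠ 0 := zz_im_neg.ne
  have r0 := zz_re_pos
  have r1 := zz_re_lt
  set f : ℝ → ℝ := fun s => (qc ((s : ℂ) + v * Complex.I)).re with hf
  have key : ∀ s : ℝ, 0 ≤ s → s ≤ 1 / 2 → HasDerivAt f (D1 ((s : ℂ) + v * Complex.I)).re s := by
    intro s hs hs1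
    have d1 := qc_deriv (memS hs hs1 (Or.inr hv0)) (memC hs hs1 (Or.inr hv0))
    exact (HasDerivAt.comp_add_const (s : ℂ) (v * Complex.I) d1).real_of_complex
  have hH : 1 < Real.cosh (2 * π * v) := Real.one_lt_cosh.2 (by
    apply mul_ne_zero _ hv0
    positivity)
  have hz : (D1 ((zz.re : ℂ) + v * Complex.I)).re = 0 := by
    rw [hv, Complex.re_add_im, crit]
    rfl
  have cmp : ∀ s t : ℝ, 0 ≤ s → s < t → t ≤ 1 / 2 →
      (D1 ((t : ℂ) + v * Complex.I)).re < (D1 ((s : ℂ) + v * Complex.I)).re := by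
    intro s t hs hst ht
    rw [D1_re hs (by linarith) hv0, D1_re (by linarith) ht hv0]
    have hc : Real.cos (2 * π * t) < Real.cos (2 * π * s) := by
      apply Real.strictAntiOn_cos
      · constructor
        · positivity
        · nlinarith
      · constructor
        · have : 0 ≤ t := by linarith
          positivity
        · nlinarith
      · nlinarith
    have c1 := Real.cos_le_one (2 * π * s)
    have c2 := Real.neg_one_le_cos (2 * π * t)
    have l1 := Real.log_lt_log (show 0 < 2 * (Real.cosh (2 * π * v) + Real.cos (2 * π * t)) by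
      linarith) (show 2 * (Real.cosh (2 * π * v) + Real.cos (2 * π * t)) <
        2 * (Real.cosh (2 * π * v) + Real.cos (2 * π * s)) by linarith)
    have l2 := Real.log_lt_log (show 0 < 2 * (Real.cosh (2 * π * v) - Real.cos (2 * π * s)) by
      linarith) (show 2 * (Real.cosh (2 * π * v) - Real.cos (2 * π * s)) <
        2 * (Real.cosh (2 * π * v) - Real.cos (2 * π * t)) by linarith)
    linarith
  have hmono : StrictMonoOn f (Icc 0 zz.re) := by
    apply strictMonoOn_of_deriv_pos (convex_Icc _ _)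
    · intro s hs
      exact (key s hs.1 (by linarith [hs.2])).continuousAt.continuousWithinAt
    · intro s hs
      rw [interior_Icc] at hs
      rw [(key s hs.1.le (by linarith [hs.2])).deriv, ← hz]
      exact cmp s zz.re hs.1.le hs.2 r1.le
  have hanti : StrictAntiOn f (Icc zz.re (1 / 2)) := by
    apply strictAntiOn_of_deriv_neg (convex_Icc _ _)
    · intro s hs
      exact (key s (by linarith [hs.1]) hs.2).continuousAt.continuousWithinAt
    · intro s hs
      rw [interior_Icc] at hs
      rw [(key s (by linarith [hs.1]) hs.2.le).deriv, ← hz]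
      exact cmp zz.re s r0.le hs.1 hs.2.le
  have hzz : F0 = f zz.re := by
    rw [hf, F0]
    simp only
    rw [hv, Complex.re_add_im]
  rw [hzz]
  rcases lt_or_gt_of_ne hx with hlt | hgt
  · exact hmono ⟨h0, hlt.le⟩ ⟨r0.le, le_rfl⟩ hlt
  · exact hanti ⟨le_rfl, r1.le⟩ ⟨hgt.le, h1⟩ hgt

/-! ### The imaginary axis -/

theorem qc_axis {y : ℝ} (hy : y < 0) : (qc (y * Complex.I)).re = -(π * y) := by
  have hp := Real.pi_pos
  have hpc := pi_ne
  have hmS : (π : ℂ) * (y * Complex.I) ∈ WS := by
    have := memS (s := 0) (y := y) le_rfl (by norm_num) (Or.inr hy.ne)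
    simpa using this
  -- LL
  have hLL : (LL (π * (y * Complex.I))).re = 0 := by
    unfold LL
    have h1 : ∫ t in (0:ℝ)..1, Complex.log (2 * Complex.cos (t * (π * (y * Complex.I)))) =
        ((∫ t in (0:ℝ)..1, Real.log (2 * Real.cosh (t * (π * y))) : ℝ) : ℂ) := by
      rw [← intervalIntegral.integral_ofReal]
      congr 1
      funext t
      rw [Complex.ofReal_log (by positivity)]
      push_cast
      rw [← Complex.cos_mul_I]
      congr 3
      ring
    rw [h1]
    simp
  -- LS
  have hLS : (LS (π * (y * Complex.I))).re = π * (π * y / 2) := by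
    rw [LS_eq, mul_div_cancel_left₀ _ hpc, Complex.re_ofReal_mul]
    congr 1
    have h1 := Pool.Agent.W398.HT.ss_eq (V := {δ : ℂ | (π : ℂ) * δ ∈ WS})
      (fun δ hδ t ht => kk_mem hδ ht) (y * Complex.I) hmS
    have h2 := Pool.Agent.W398.HT.contLk (V := {δ : ℂ | (π : ℂ) * δ ∈ WS})
      (fun δ hδ t ht => kk_mem hδ ht) (y * Complex.I) hmS
    rw [h1]
    have h3 : (∫ t in (0 : ℝ)..1, Complex.log (Pool.Agent.W398.HT.kk (y * Complex.I) t)).im =
        -(π / 2) := by
      have h4 : (∫ t in (0 : ℝ)..1, Complex.log (Pool.Agent.W398.HT.kk (y * Complex.I) t)).im =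
          ∫ t in (0 : ℝ)..1, (Complex.log (Pool.Agent.W398.HT.kk (y * Complex.I) t)).im := by
        have := Complex.imCLM.intervalIntegral_comp_comm (h2.intervalIntegrable (μ := volume))
        simp only [Complex.imCLM_apply] at this
        exact this.symm
      rw [h4]
      have h5 : ∫ t in (0 : ℝ)..1, (Complex.log (Pool.Agent.W398.HT.kk (y * Complex.I) t)).im =
          ∫ t in (0 : ℝ)..1, -(π / 2) := by
        refine intervalIntegral.integral_congr_ae (Filter.Eventually.of_forall fun t ht => ?_)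
        rw [Set.uIoc_of_le zero_le_one] at ht
        have h6 := Pool.Agent.W398.HT.sin_kk (y * Complex.I) t
        have h7 : 2 * Complex.sin (π * (y * Complex.I) * t) =
            ((2 * Real.sinh (π * y * t) : ℝ) : ℂ) * Complex.I := by
          have : (π * (y * Complex.I) * t : ℂ) = ((π * y * t : ℝ) : ℂ) * Complex.I := by
            push_cast; ring
          rw [this, Complex.sin_mul_I]
          push_cast; ring
        have h8 : Pool.Agent.W398.HT.kk (y * Complex.I) t =
            ((2 * -Real.sinh (π * y * t) / t : ℝ) : ℂ) * (-Complex.I) := by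
          have ht0 : (t : ℂ) ≠ 0 := by exact_mod_cast ht.1.ne'
          apply mul_left_cancel₀ ht0
          rw [← h6, h7]
          push_cast
          field_simp
        have h9 : 0 < 2 * -Real.sinh (π * y * t) / t := by
          have : Real.sinh (π * y * t) < 0 := by
            rw [Real.sinh_neg_iff]
            have := ht.1
            have h10 : π * y < 0 := mul_neg_of_pos_of_neg hp hy
            exact mul_neg_of_neg_of_pos h10 this
          apply div_pos _ ht.1
          linarith
        rw [h8, Complex.log_ofReal_mul h9 (by simp), Complex.log_neg_I]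
        simp
      rw [h5]
      simp
    have h10 : (y * Complex.I * (-1 + ∫ t in (0 : ℝ)..1,
        Complex.log (Pool.Agent.W398.HT.kk (y * Complex.I) t))).re =
        -(y * (∫ t in (0 : ℝ)..1, Complex.log (Pool.Agent.W398.HT.kk (y * Complex.I) t)).im) := by
      simp [Complex.mul_re]
    rw [h10, h3]
    ring
  rw [qc_eq]
  have e1 : (2 * (LL (π * (y * Complex.I)) / π)).re = 2 * ((LL (π * (y * Complex.I))).re / π) := by
    have h1 := Complex.re_ofReal_mul 2 (LL (π * (y * Complex.I)) / π)
    rw [Complex.div_ofReal_re] at h1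
    exact_mod_cast h1
  have e2 : (3 * (LS (π * (y * Complex.I)) / π)).re = 3 * ((LS (π * (y * Complex.I))).re / π) := by
    have h1 := Complex.re_ofReal_mul 3 (LS (π * (y * Complex.I)) / π)
    rw [Complex.div_ofReal_re] at h1
    exact_mod_cast h1
  have e3 : (π * Complex.I / 2 * (y * Complex.I + (y * Complex.I) ^ 2)) =
      ((-(π * y) / 2 : ℝ) : ℂ) + ((-(π * y ^ 2) / 2 : ℝ) : ℂ) * Complex.I := by
    push_cast
    have := Complex.I_mul_I
    linear_combination (π / 2 * y + π / 2 * y ^ 2 * Complex.I : ℂ) * this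
  rw [Complex.sub_re, Complex.sub_re, e1, e2, hLL, hLS, e3, Complex.add_re, Complex.ofReal_re,
    Complex.re_ofReal_mul, Complex.I_re]
  field_simp
  ring

/-- the critical value is large -/
theorem F0_gt : -(π * zz.im) < F0 := by
  have h := flat (x := 0) le_rfl (by norm_num) zz_re_pos.ne
  rwa [Complex.ofReal_zero, zero_add, qc_axis zz_im_neg] at h

theorem F0_pos : 0 < F0 := by
  have := F0_gt
  have := mul_neg_of_pos_of_neg Real.pi_pos zz_im_neg
  linarith

end Pool.Agent.N525.VS
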